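import Pool.Agent.H78.GS.TA3

/-!
# Board gs3_modules (MP_c59857_nt), row ACTX: the choice of a cut point
-/

set_option autoImplicit false

open Finset Pool.Agent.H6.N4D

namespace Pool.Agent.H10.G3

open Pool.Agent.H78.GS

theorem ctx_one (R : ℕ) (u e g : ℝ) (he : 0 < e) :
    ((range R).filter fun m : ℕ => |g - (u + 3 * e * m)| ≤ e).card ≤ 1 := by
  rw [Finset.card_le_one]
  intro m hm m' hm'
  have h1 := abs_le.1 (Finset.mem_filter.1 hm).2
  have h2 := abs_le.1 (Finset.mem_filter.1 hm').2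
  by_contra hne
  rcases lt_or_gt_of_ne hne with h | h
  · have h3 : (m : ℝ) + 1 ≤ m' := by exact_mod_cast h
    nlinarith
  · have h3 : (m' : ℝ) + 1 ≤ m := by exact_mod_cast h
    nlinarith

theorem pf_CTX : T_CTX := by
  classical
  intro S r₀ F G u v e hN hF huv he
  have hI : (S.I.card : ℝ) = S.N := by
    unfold Par.I Par.N at *
    rw [Int.card_Ico]
    have h1 : (0 : ℤ) ≤ S.b - S.a := by
      have : (0 : ℝ) ≤ ((S.b - S.a : ℤ) : ℝ) := by push_cast; exact hN
      exact_mod_cast this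
    have h2 : (((S.b - S.a).toNat : ℤ) : ℝ) = ((S.b - S.a : ℤ) : ℝ) := by
      rw [Int.toNat_of_nonneg h1]
    push_cast at h2
    exact h2
  set R : ℕ := ⌊(v - u) / (3 * e)⌋₊ + 1 with hR
  have hvu : 0 < v - u := sub_pos.2 huv
  have hq : 0 < (v - u) / (3 * e) := by positivity
  have hR1 : (v - u) / (3 * e) ≤ R := by
    rw [hR]
    push_cast
    exact (Nat.lt_floor_add_one _).le
  have hR0 : (0 : ℝ) < R := hq.trans_le hR1
  set f : ℕ → ℝ := fun m => S.cnt fun t => ∃ j ∈ F t, |G t j - (u + 3 * e * m)| ≤ e with hf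
  have hfle : ∀ m, f m ≤ ∑ t ∈ S.I, ∑ j ∈ F t,
      (if |G t j - (u + 3 * e * m)| ≤ e then (1 : ℝ) else 0) := by
    intro m
    have h1 : f m = ∑ t ∈ S.I,
        (if (∃ j ∈ F t, |G t j - (u + 3 * e * m)| ≤ e) then (1 : ℝ) else 0) := by
      simp only [hf]
      unfold Par.cnt Par.fl
      rw [Finset.card_filter]
      push_cast
      refine Finset.sum_congr rfl fun t _ => ?_
      congr 1
    rw [h1]
    refine Finset.sum_le_sum fun t _ => ?_
    split_ifs with h
    · obtain ⟨j, hj, hj2⟩ := h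
      have h2 := Finset.single_le_sum (f := fun j =>
        (if |G t j - (u + 3 * e * m)| ≤ e then (1 : ℝ) else 0))
        (fun i _ => by split_ifs <;> norm_num) hj
      simp only [if_pos hj2] at h2
      exact h2
    · exact Finset.sum_nonneg fun i _ => by split_ifs <;> norm_num
  have hsum : ∑ m ∈ range R, f m ≤ r₀ * S.N := by
    refine (Finset.sum_le_sum fun m _ => hfle m).trans ?_
    rw [Finset.sum_comm]
    have h1 : ∀ t ∈ S.I, ∑ m ∈ range R, ∑ j ∈ F t,
        (if |G t j - (u + 3 * e * m)| ≤ e then (1 : ℝ) else 0) ≤ r₀ := by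
      intro t _
      rw [Finset.sum_comm]
      have h2 : ∀ j ∈ F t, ∑ m ∈ range R,
          (if |G t j - (u + 3 * e * m)| ≤ e then (1 : ℝ) else 0) ≤ 1 := by
        intro j _
        have h3 := ctx_one R u e (G t j) he
        rw [Finset.card_filter] at h3
        have h4 : ((∑ m ∈ range R,
          (if |G t j - (u + 3 * e * m)| ≤ e then 1 else 0) : ℕ) : ℝ) ≤ 1 := by exact_mod_cast h3
        push_cast at h4
        exact h4
      refine (Finset.sum_le_sum h2).trans ?_
      rw [Finset.sum_const, nsmul_eq_mul, mul_one]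
      have h5 := Finset.card_le_card (hF t)
      rw [Finset.card_range] at h5
      exact_mod_cast h5
    refine (Finset.sum_le_sum h1).trans ?_
    rw [Finset.sum_const, nsmul_eq_mul, hI, mul_comm]
  obtain ⟨m, hm, hm2⟩ := Finset.exists_le_of_sum_le (s := range R) (f := f)
    (g := fun _ => r₀ * S.N / R) ⟨0, by rw [Finset.mem_range, hR]; omega⟩ (by
      rw [Finset.sum_const, Finset.card_range, nsmul_eq_mul, mul_div_cancel₀ _ hR0.ne']
      exact hsum)
  refine ⟨u + 3 * e * m, ?_, ?_, hm2.trans ?_⟩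
  · have : (0 : ℝ) ≤ 3 * e * m := by positivity
    linarith
  · have h1 : (m : ℝ) ≤ ⌊(v - u) / (3 * e)⌋₊ := by
      have := Finset.mem_range.1 hm
      rw [hR] at this
      exact_mod_cast Nat.lt_succ_iff.1 this
    have h2 : (m : ℝ) ≤ (v - u) / (3 * e) := h1.trans (Nat.floor_le hq.le)
    rw [le_div_iff₀ (by positivity)] at h2
    linarith
  · have h1 : (r₀ : ℝ) * S.N / R ≤ r₀ * S.N / ((v - u) / (3 * e)) := by
      refine div_le_div_of_nonneg_left (by positivity) hq hR1
    refine h1.trans ?_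
    rw [div_div_eq_mul_div, div_mul_eq_mul_div]
    refine div_le_div_of_nonneg_right ?_ hvu.le
    have h2 : (0 : ℝ) ≤ r₀ * S.N * e := by positivity
    linarith

end Pool.Agent.H10.G3
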